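import Pool.Agent.helper84.VN.Spec4n

/-!
# MP_07c750, project VN, row UB4: signs during one unit of time
-/

set_option autoImplicit false

open scoped MatrixGroups ContDiff Topology UpperHalfPlane ComplexConjugate ENNReal
open UpperHalfPlane MeasureTheory Filter Set

namespace Pool.Agent.VN

open Pool.Agent.RS Pool.Agent.VQ
open Pool.Agent.VQE (nm)

noncomputable section

/-- a cooperative system of differential inequalities, homogeneous case -/
theorem UB4_hom (c0 T : ℝ) (y z : ℝ → ℝ) (hT : 0 ≤ T) (hc : 0 ≤ c0) (hy0 : 0 < y 0) (hz0 : 0 < z 0)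
    (H : ∀ s ∈ Icc 0 T, ∃ y' z' a b : ℝ, HasDerivAt y y' s ∧ HasDerivAt z z' s ∧ c0 ≤ a ∧ c0 ≤ b ∧ a * z s ≤ y' ∧ b * y s ≤ z') :
    y 0 + c0 * z 0 * T ≤ y T ∧ z 0 + c0 * y 0 * T ≤ z T := by
  have hcy : ContinuousOn y (Icc 0 T) := fun s hs => by
    obtain ⟨y', z', a, b, h1, -⟩ := H s hs
    exact h1.continuousAt.continuousWithinAt
  have hcz : ContinuousOn z (Icc 0 T) := fun s hs => by
    obtain ⟨y', z', a, b, -, h1, -⟩ := H s hs
    exact h1.continuousAt.continuousWithinAt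
  have mono : ∀ r ∈ Icc 0 T, (∀ s ∈ Ico 0 r, 0 < y s ∧ 0 < z s) → MonotoneOn y (Icc 0 r) ∧ MonotoneOn z (Icc 0 r) := by
    intro r hr hp
    have hsub : Icc 0 r ⊆ Icc 0 T := Icc_subset_Icc_right hr.2
    have hsub2 : Ioo 0 r ⊆ Icc 0 T := fun s hs => hsub ⟨hs.1.le, hs.2.le⟩
    constructor
    · refine monotoneOn_of_deriv_nonneg (convex_Icc 0 r) (hcy.mono hsub) ?_ ?_
      · rw [interior_Icc]
        intro s hs
        obtain ⟨y', z', a, b, h1, -⟩ := H s (hsub2 hs)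
        exact h1.differentiableAt.differentiableWithinAt
      · rw [interior_Icc]
        intro s hs
        obtain ⟨y', z', a, b, h1, -, ha, -, h3, -⟩ := H s (hsub2 hs)
        rw [h1.deriv]
        have h4 := (hp s ⟨hs.1.le, hs.2⟩).2
        exact (mul_nonneg (hc.trans ha) h4.le).trans h3
    · refine monotoneOn_of_deriv_nonneg (convex_Icc 0 r) (hcz.mono hsub) ?_ ?_
      · rw [interior_Icc]
        intro s hs
        obtain ⟨y', z', a, b, -, h1, -⟩ := H s (hsub2 hs)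
        exact h1.differentiableAt.differentiableWithinAt
      · rw [interior_Icc]
        intro s hs
        obtain ⟨y', z', a, b, -, h1, -, hb, -, h3⟩ := H s (hsub2 hs)
        rw [h1.deriv]
        have h4 := (hp s ⟨hs.1.le, hs.2⟩).1
        exact (mul_nonneg (hc.trans hb) h4.le).trans h3
  have pos : ∀ s ∈ Icc 0 T, 0 < y s ∧ 0 < z s := by
    by_contra hcon
    push Not at hcon
    obtain ⟨s1, hs1, hs2⟩ := hcon
    set S : Set ℝ := (Icc 0 T ∩ y ⁻¹' Iic 0) ∪ (Icc 0 T ∩ z ⁻¹' Iic 0) with hS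
    have hScl : IsClosed S := (hcy.preimage_isClosed_of_isClosed isClosed_Icc isClosed_Iic).union
      (hcz.preimage_isClosed_of_isClosed isClosed_Icc isClosed_Iic)
    have hSne : S.Nonempty := by
      refine ⟨s1, ?_⟩
      by_cases h : 0 < y s1
      · exact Or.inr ⟨hs1, hs2 h⟩
      · exact Or.inl ⟨hs1, not_lt.1 h⟩
    have hSb : BddBelow S := ⟨0, fun s hs => by
      rcases hs with hs | hs
      · exact hs.1.1
      · exact hs.1.1⟩
    have hm : sInf S ∈ S := hScl.csInf_mem hSne hSb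
    set r := sInf S with hr
    have hrT : r ∈ Icc 0 T := by
      rcases hm with hm | hm
      · exact hm.1
      · exact hm.1
    have hp : ∀ s ∈ Ico 0 r, 0 < y s ∧ 0 < z s := by
      intro s hs
      have h1 : s ∉ S := notMem_of_lt_csInf hs.2 hSb
      have hsT : s ∈ Icc 0 T := ⟨hs.1, hs.2.le.trans hrT.2⟩
      constructor
      · by_contra h2
        exact h1 (Or.inl ⟨hsT, not_lt.1 h2⟩)
      · by_contra h2
        exact h1 (Or.inr ⟨hsT, not_lt.1 h2⟩)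
    obtain ⟨m1, m2⟩ := mono r hrT hp
    have h01 : (0 : ℝ) ∈ Icc 0 r := ⟨le_rfl, hrT.1⟩
    have h02 : r ∈ Icc 0 r := ⟨hrT.1, le_rfl⟩
    have e1 := m1 h01 h02 hrT.1
    have e2 := m2 h01 h02 hrT.1
    rcases hm with hm | hm
    · exact absurd (show y r ≤ 0 from hm.2) (not_le.2 (hy0.trans_le e1))
    · exact absurd (show z r ≤ 0 from hm.2) (not_le.2 (hz0.trans_le e2))
  obtain ⟨m1, m2⟩ := mono T ⟨hT, le_rfl⟩ (fun s hs => pos s ⟨hs.1, hs.2.le⟩)
  have h00 : (0 : ℝ) ∈ Icc 0 T := ⟨le_rfl, hT⟩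
  have hTT : T ∈ Icc 0 T := ⟨hT, le_rfl⟩
  constructor
  · have h := (convex_Icc 0 T).mul_sub_le_image_sub_of_le_deriv hcy (C := c0 * z 0) ?_ ?_ 0 h00 T hTT hT
    · rw [sub_zero] at h
      linarith
    · rw [interior_Icc]
      intro s hs
      obtain ⟨y', z', a, b, h1, -⟩ := H s ⟨hs.1.le, hs.2.le⟩
      exact h1.differentiableAt.differentiableWithinAt
    · rw [interior_Icc]
      intro s hs
      have hsT : s ∈ Icc 0 T := ⟨hs.1.le, hs.2.le⟩
      obtain ⟨y', z', a, b, h1, -, ha, -, h3, -⟩ := H s hsT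
      rw [h1.deriv]
      have e1 := m2 h00 hsT hs.1.le
      calc c0 * z 0 ≤ a * z s := mul_le_mul ha e1 hz0.le (hc.trans ha)
        _ ≤ y' := h3
  · have h := (convex_Icc 0 T).mul_sub_le_image_sub_of_le_deriv hcz (C := c0 * y 0) ?_ ?_ 0 h00 T hTT hT
    · rw [sub_zero] at h
      linarith
    · rw [interior_Icc]
      intro s hs
      obtain ⟨y', z', a, b, -, h1, -⟩ := H s ⟨hs.1.le, hs.2.le⟩
      exact h1.differentiableAt.differentiableWithinAt
    · rw [interior_Icc]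
      intro s hs
      have hsT : s ∈ Icc 0 T := ⟨hs.1.le, hs.2.le⟩
      obtain ⟨y', z', a, b, -, h1, -, hb, -, h3⟩ := H s hsT
      rw [h1.deriv]
      have e1 := m1 h00 hsT hs.1.le
      calc c0 * y 0 ≤ b * y s := mul_le_mul hb e1 hy0.le (hc.trans hb)
        _ ≤ z' := h3

/-- a cooperative system with errors -/
theorem UB4_ode1 (L c0 δ T : ℝ) (J W : ℝ → ℝ) (hδ : 0 < δ) (hT : 0 ≤ T) (hc : 0 ≤ c0) (hcL : c0 ≤ L) (hJ0 : 0 ≤ J 0) (hW0 : 0 ≤ W 0)
    (H : ∀ s ∈ Icc 0 T, ∃ j w a b : ℝ, HasDerivAt J j s ∧ HasDerivAt W w s ∧ c0 ≤ a ∧ a ≤ L ∧ c0 ≤ b ∧ b ≤ L ∧ a * W s - δ ≤ j ∧ b * J s - δ ≤ w) :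
    J 0 + c0 * W 0 * T - δ * Real.exp ((L + 1) * T) ≤ J T ∧ W 0 + c0 * J 0 * T - δ * Real.exp ((L + 1) * T) ≤ W T := by
  have hη : ∀ s : ℝ, HasDerivAt (fun s => δ * Real.exp ((L + 1) * s)) (δ * (Real.exp ((L + 1) * s) * (L + 1))) s := by
    intro s
    have h1 : HasDerivAt (fun s : ℝ => (L + 1) * s) (L + 1) s := by
      have := (hasDerivAt_id s).const_mul (L + 1)
      rw [mul_one] at this
      exact this
    exact (h1.exp).const_mul δ
  have hL : 0 ≤ L := hc.trans hcL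
  have hη1 : ∀ s ∈ Icc 0 T, δ ≤ δ * Real.exp ((L + 1) * s) := by
    intro s hs
    have h1 : 1 ≤ Real.exp ((L + 1) * s) := Real.one_le_exp (mul_nonneg (by linarith) hs.1)
    nlinarith
  have h := UB4_hom c0 T (fun s => J s + δ * Real.exp ((L + 1) * s)) (fun s => W s + δ * Real.exp ((L + 1) * s)) hT hc ?_ ?_ ?_
  · simp only [mul_zero, Real.exp_zero, mul_one] at h
    have h1 : 0 ≤ c0 * δ * T := by positivity
    have h2 : c0 * (W 0 + δ) * T = c0 * W 0 * T + c0 * δ * T := by ring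
    have h3 : c0 * (J 0 + δ) * T = c0 * J 0 * T + c0 * δ * T := by ring
    rw [h2, h3] at h
    constructor
    · linarith [h.1]
    · linarith [h.2]
  · simp only [mul_zero, Real.exp_zero, mul_one]
    linarith
  · simp only [mul_zero, Real.exp_zero, mul_one]
    linarith
  · intro s hs
    obtain ⟨j, w, a, b, h1, h2, ha, haL, hb, hbL, h3, h4⟩ := H s hs
    have h5 := hη1 s hs
    refine ⟨j + δ * (Real.exp ((L + 1) * s) * (L + 1)), w + δ * (Real.exp ((L + 1) * s) * (L + 1)), a, b, h1.add (hη s), h2.add (hη s), ha, hb, ?_, ?_⟩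
    · have e1 : 0 ≤ (L - a) * (δ * Real.exp ((L + 1) * s)) := mul_nonneg (by linarith) (by positivity)
      show a * (W s + δ * Real.exp ((L + 1) * s)) ≤ _
      nlinarith
    · have e1 : 0 ≤ (L - b) * (δ * Real.exp ((L + 1) * s)) := mul_nonneg (by linarith) (by positivity)
      show b * (J s + δ * Real.exp ((L + 1) * s)) ≤ _
      nlinarith

theorem UB4_ode (L c0 δ T : ℝ) (J W : ℝ → ℝ) (hδ : 0 ≤ δ) (hT : 0 ≤ T) (hc : 0 ≤ c0) (hcL : c0 ≤ L) (hJ0 : 0 ≤ J 0) (hW0 : 0 ≤ W 0)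
    (H : ∀ s ∈ Icc 0 T, ∃ j w a b : ℝ, HasDerivAt J j s ∧ HasDerivAt W w s ∧ c0 ≤ a ∧ a ≤ L ∧ c0 ≤ b ∧ b ≤ L ∧ a * W s - δ ≤ j ∧ b * J s - δ ≤ w) :
    J 0 + c0 * W 0 * T - δ * Real.exp ((L + 1) * T) ≤ J T ∧ W 0 + c0 * J 0 * T - δ * Real.exp ((L + 1) * T) ≤ W T := by
  have key : ∀ κ : ℝ, 0 < κ → J 0 + c0 * W 0 * T - (δ + κ * Real.exp (-((L + 1) * T))) * Real.exp ((L + 1) * T) ≤ J T ∧
      W 0 + c0 * J 0 * T - (δ + κ * Real.exp (-((L + 1) * T))) * Real.exp ((L + 1) * T) ≤ W T := by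
    intro κ hκ
    have hκ' : 0 < κ * Real.exp (-((L + 1) * T)) := by positivity
    refine UB4_ode1 L c0 _ T J W (by linarith) hT hc hcL hJ0 hW0 ?_
    intro s hs
    obtain ⟨j, w, a, b, h1, h2, ha, haL, hb, hbL, h3, h4⟩ := H s hs
    exact ⟨j, w, a, b, h1, h2, ha, haL, hb, hbL, by linarith, by linarith⟩
  have e0 : ∀ κ : ℝ, (δ + κ * Real.exp (-((L + 1) * T))) * Real.exp ((L + 1) * T) = δ * Real.exp ((L + 1) * T) + κ := by
    intro κ
    rw [add_mul, mul_assoc κ, ← Real.exp_add, neg_add_cancel, Real.exp_zero, mul_one]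
  constructor
  · refine le_of_forall_pos_le_add fun κ hκ => ?_
    have := (key κ hκ).1
    rw [e0] at this
    linarith
  · refine le_of_forall_pos_le_add fun κ hκ => ?_
    have := (key κ hκ).2
    rw [e0] at this
    linarith

theorem UB4_proof (hGN4 : GN4_stmt) (hJW4 : JW4_stmt) (hCN4 : CN4_stmt) : UB4_stmt := by
  intro k C
  obtain ⟨K1, hK1, H1⟩ := hGN4 k C
  obtain ⟨K2, hK2, H2⟩ := hJW4 k C
  obtain ⟨K3, hK3, H3⟩ := hCN4 k C
  set Cm : ℝ := max C 1 with hCm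
  have hCm1 : 1 ≤ Cm := le_max_right _ _
  have hCm3 : 1 ≤ Cm ^ 3 := one_le_pow₀ hCm1
  set M1 : ℝ := K3 * Real.exp (K1 * 2) with hM1
  have hexp1 : 1 ≤ Real.exp (K1 * 2) := Real.one_le_exp (by linarith)
  have hM1' : 1 ≤ M1 := by
    rw [hM1]
    nlinarith
  set L : ℝ := Cm ^ 3 with hL
  set G : ℝ := 2 * Real.exp ((L + 1) * 2) * (K2 * (2 * M1 ^ 2 + 1)) with hG
  have hG0 : 0 ≤ G := by positivity
  refine ⟨max (max (10 * M1) K3) (max (Cm ^ 3) G), ?_, ?_⟩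
  · exact hCm3.trans ((le_max_left _ _).trans (le_max_right _ _))
  intro D hD E E' t ε J0 W0 N0 J1 W1 σ g g' x y hE hE' hEE ht1 ht2 hσ hx hy hxx hx0 hnx hJ0 hW0 hN0 hKN hJ1 hW1 hsJ hsW
  set K : ℝ := max (max (10 * M1) K3) (max (Cm ^ 3) G) with hK
  have hKa : 10 * M1 ≤ K := (le_max_left _ _).trans (le_max_left _ _)
  have hKb : K3 ≤ K := (le_max_right _ _).trans (le_max_left _ _)
  have hKc : Cm ^ 3 ≤ K := (le_max_left _ _).trans (le_max_right _ _)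
  have hKd : G ≤ K := (le_max_right _ _).trans (le_max_right _ _)
  have hK1' : 1 ≤ K := hCm3.trans hKc
  have hK0 : 0 < K := by linarith
  have hε : 0 ≤ ε := (abs_nonneg _).trans hEE
  have hN00 : 0 ≤ N0 := by rw [hN0]; exact add_nonneg (abs_nonneg _) (abs_nonneg _)
  have hCC : Cm = C := max_eq_left hD.C1
  -- size of the difference
  have hnx3 : nm x ≤ K3 * N0 := by
    have h := ((H3 D hD).1 E g x hE (hnx.trans (one_div_le_one_div_of_le (by linarith) hKb))).2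
    rw [hxx, sub_self, abs_zero, add_zero, ← hN0] at h
    exact h
  set M : ℝ := M1 * (N0 + ε) with hM
  have hM0 : 0 ≤ M := by positivity
  have hM10 : M ≤ 1 / 10 := by
    have h1 : 10 * M1 * (N0 + ε) ≤ K * (N0 + ε) := mul_le_mul_of_nonneg_right hKa (by linarith)
    rw [hM]
    linarith
  have hXn : ∀ s ∈ Icc 0 t, nm (Xt D E E' g g' s) ≤ M := by
    intro s hs
    have h := H1 D hD E E' s ε g g' hE hE' hEE
    rw [← hx] at h
    refine h.trans ?_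
    have hs2 : |s| ≤ 2 := by
      rw [abs_of_nonneg hs.1]
      exact hs.2.trans ht2
    have e1 : Real.exp (K1 * |s|) ≤ Real.exp (K1 * 2) := Real.exp_le_exp.2 (mul_le_mul_of_nonneg_left hs2 (by linarith))
    have e2 : nm x + ε ≤ K3 * (N0 + ε) := by nlinarith
    calc (nm x + ε) * Real.exp (K1 * |s|) ≤ (K3 * (N0 + ε)) * Real.exp (K1 * 2) := by
          have e3 : 0 ≤ K3 * (N0 + ε) := by positivity
          exact mul_le_mul e2 e1 (Real.exp_nonneg _) e3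
      _ = M := by rw [hM, hM1]; ring
  set δ : ℝ := K2 * (M ^ 2 + ε) with hδ
  have hδ0 : 0 ≤ δ := by positivity
  have hNε : N0 + ε ≤ 1 := by nlinarith
  have hε1 : ε ≤ 1 := by linarith
  have hδ1 : 2 * Real.exp ((L + 1) * 2) * δ ≤ K * (N0 ^ 2 + ε) := by
    have e1 : M ^ 2 ≤ 2 * M1 ^ 2 * (N0 ^ 2 + ε) := by
      rw [hM, mul_pow]
      have e2 : (N0 + ε) ^ 2 ≤ 2 * (N0 ^ 2 + ε) := by nlinarith [sq_nonneg (N0 - ε)]
      have e3 : 0 ≤ M1 ^ 2 := sq_nonneg _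
      calc M1 ^ 2 * (N0 + ε) ^ 2 ≤ M1 ^ 2 * (2 * (N0 ^ 2 + ε)) := mul_le_mul_of_nonneg_left e2 e3
        _ = 2 * M1 ^ 2 * (N0 ^ 2 + ε) := by ring
    have e2 : δ ≤ K2 * (2 * M1 ^ 2 + 1) * (N0 ^ 2 + ε) := by
      have e4 : M ^ 2 + ε ≤ (2 * M1 ^ 2 + 1) * (N0 ^ 2 + ε) := by nlinarith [sq_nonneg N0]
      rw [hδ, mul_assoc]
      exact mul_le_mul_of_nonneg_left e4 (by linarith)
    calc 2 * Real.exp ((L + 1) * 2) * δ ≤ 2 * Real.exp ((L + 1) * 2) * (K2 * (2 * M1 ^ 2 + 1) * (N0 ^ 2 + ε)) :=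
          mul_le_mul_of_nonneg_left e2 (by positivity)
      _ = G * (N0 ^ 2 + ε) := by rw [hG]; ring
      _ ≤ K * (N0 ^ 2 + ε) := mul_le_mul_of_nonneg_right hKd (by positivity)
  -- the system
  have hσ2 : σ * σ = 1 := by rcases hσ with h | h <;> rw [h] <;> norm_num
  have hσa : |σ| = 1 := by rcases hσ with h | h <;> rw [h] <;> simp
  set Jf : ℝ → ℝ := fun s => σ * JX D.U E (D.fl E s g) (Xt D E E' g g' s) with hJf
  set Wf : ℝ → ℝ := fun s => σ * WX D.U E (D.fl E s g) (Xt D E E' g g' s) with hWf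
  have hX0 : Xt D E E' g g' 0 = x := by
    rw [Xt, hD.zero, hD.zero, hx]
  have hJf0 : Jf 0 = σ * J0 := by
    rw [hJf]
    simp only [hX0, hD.zero, hJ0]
  have hWf0 : Wf 0 = σ * W0 := by
    rw [hWf]
    simp only [hX0, hD.zero, hW0]
  have hJft : Jf t = σ * J1 := by rw [hJf, hJ1, hy]
  have hWft : Wf t = σ * W1 := by rw [hWf, hW1, hy]
  have hsys := UB4_ode L (1 / Cm ^ 3) δ t Jf Wf hδ0 (by linarith) (by positivity) ?_ (by rw [hJf0]; exact hsJ) (by rw [hWf0]; exact hsW) ?_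
  · rw [hJf0, hWf0, hJft, hWft] at hsys
    obtain ⟨s1, s2⟩ := hsys
    have hc1 : 1 / K ≤ 1 / Cm ^ 3 := one_div_le_one_div_of_le (by positivity) hKc
    have hc2 : 1 / Cm ^ 3 ≤ 1 := by
      rw [div_le_one (by positivity)]
      exact hCm3
    have hKi : 0 < 1 / K := by positivity
    have e1 : δ * Real.exp ((L + 1) * t) ≤ δ * Real.exp ((L + 1) * 2) := by
      refine mul_le_mul_of_nonneg_left (Real.exp_le_exp.2 (mul_le_mul_of_nonneg_left ht2 ?_)) hδ0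
      have : 0 ≤ L := by positivity
      linarith
    have e2 : 0 ≤ δ * Real.exp ((L + 1) * 2) := by positivity
    have e3 : 1 / K * (σ * W0) ≤ 1 / Cm ^ 3 * (σ * W0) * t := by
      have q1 : 1 / K * (σ * W0) ≤ 1 / Cm ^ 3 * (σ * W0) := mul_le_mul_of_nonneg_right hc1 hsW
      have q2 : 0 ≤ 1 / Cm ^ 3 * (σ * W0) := by positivity
      nlinarith
    have e4 : 1 / K * (σ * J0) ≤ 1 / Cm ^ 3 * (σ * J0) * t := by
      have q1 : 1 / K * (σ * J0) ≤ 1 / Cm ^ 3 * (σ * J0) := mul_le_mul_of_nonneg_right hc1 hsJ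
      have q2 : 0 ≤ 1 / Cm ^ 3 * (σ * J0) := by positivity
      nlinarith
    have e5 : σ * (J0 + W0) / K = 1 / K * (σ * J0) + 1 / K * (σ * W0) := by ring
    have hKi1 : 1 / K ≤ 1 := hc1.trans hc2
    have e6 : 1 / K * (σ * J0) ≤ σ * J0 := by nlinarith
    have e7 : 1 / K * (σ * W0) ≤ σ * W0 := by nlinarith
    have e8 : δ * Real.exp ((L + 1) * 2) * 2 ≤ K * (N0 ^ 2 + ε) := by
      have : 2 * Real.exp ((L + 1) * 2) * δ = δ * Real.exp ((L + 1) * 2) * 2 := by ring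
      rw [← this]
      exact hδ1
    refine ⟨?_, ?_, ?_⟩
    · rw [e5]
      linarith
    · rw [e5]
      linarith
    · have e9 : (1 + 1 / K) * (σ * (J0 + W0)) = σ * J0 + σ * W0 + 1 / K * (σ * J0) + 1 / K * (σ * W0) := by ring
      have e10 : σ * (J1 + W1) = σ * J1 + σ * W1 := by ring
      rw [e9, e10]
      linarith
  · rw [div_le_iff₀ (by positivity)]
    nlinarith
  · intro s hs
    have hXs := hXn s hs
    obtain ⟨j', w', x', d1, d2, -, b1, b2, -⟩ := H2 D hD E E' s g g' hE hE' (hXs.trans hM10)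
    have hX0' : 0 ≤ nm (Xt D E E' g g' s) := (abs_nonneg _).trans (le_max_left _ _ |>.trans' (le_max_left _ _))
    have hb0 : K2 * (nm (Xt D E E' g g' s) ^ 2 + |E' - E|) ≤ δ := by
      rw [hδ]
      refine mul_le_mul_of_nonneg_left ?_ (by linarith)
      have : nm (Xt D E E' g g' s) ^ 2 ≤ M ^ 2 := pow_le_pow_left₀ hX0' hXs 2
      linarith
    have b1' := b1.trans hb0
    have b2' := b2.trans hb0
    obtain ⟨r1, r2⟩ := hD.ro E (D.fl E s g) hE
    obtain ⟨k1, k2⟩ := hD.kg E (D.fl E s g) hE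
    rw [← hCC] at r1 r2 k1 k2
    set ρ : ℝ := rho D.U E (D.fl E s g) with hρ
    set κ : ℝ := Kg D.U E (D.fl E s g) with hκ
    have hCi : 0 < 1 / Cm := by positivity
    have hCi1 : 1 / Cm ≤ 1 := by
      rw [div_le_one (by positivity)]
      exact hCm1
    have hρ0 : 0 < ρ := hCi.trans_le r1
    have q1 : (1 / Cm) ^ 2 ≤ ρ ^ 2 := pow_le_pow_left₀ hCi.le r1 2
    have q2 : ρ ^ 2 ≤ Cm ^ 2 := pow_le_pow_left₀ hρ0.le r2 2
    have q3 : 1 / Cm ^ 3 ≤ (1 / Cm) ^ 2 := by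
      rw [show (1 : ℝ) / Cm ^ 3 = (1 / Cm) ^ 3 by rw [div_pow, one_pow]]
      exact pow_le_pow_of_le_one hCi.le hCi1 (by norm_num)
    have q4 : Cm ^ 2 ≤ Cm ^ 3 := pow_le_pow_right₀ hCm1 (by norm_num)
    have q5 : 1 / Cm ^ 3 ≤ ρ ^ 2 * (-κ) := by
      calc 1 / Cm ^ 3 = (1 / Cm) ^ 2 * (1 / Cm) := by rw [← pow_succ, div_pow, one_pow]
        _ ≤ ρ ^ 2 * (-κ) := mul_le_mul q1 k1 hCi.le (by positivity)
    have q6 : ρ ^ 2 * (-κ) ≤ Cm ^ 3 := by
      calc ρ ^ 2 * (-κ) ≤ Cm ^ 2 * Cm := mul_le_mul q2 k2 (hCi.le.trans k1) (by positivity)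
        _ = Cm ^ 3 := by ring
    refine ⟨σ * j', σ * w', ρ ^ 2, ρ ^ 2 * (-κ), d1.const_mul σ, d2.const_mul σ, q3.trans q1, q2.trans q4, q5, q6, ?_, ?_⟩
    · have e1 : |σ * (j' - ρ ^ 2 * WX D.U E (D.fl E s g) (Xt D E E' g g' s))| ≤ δ := by
        rw [abs_mul, hσa, one_mul]
        exact b1'
      have e2 := (abs_le.1 e1).1
      show ρ ^ 2 * (σ * WX D.U E (D.fl E s g) (Xt D E E' g g' s)) - δ ≤ σ * j'
      linarith
    · have e1 : |σ * (w' + ρ ^ 2 * κ * JX D.U E (D.fl E s g) (Xt D E E' g g' s))| ≤ δ := by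
        rw [abs_mul, hσa, one_mul]
        exact b2'
      have e2 := (abs_le.1 e1).1
      show ρ ^ 2 * (-κ) * (σ * JX D.U E (D.fl E s g) (Xt D E E' g g' s)) - δ ≤ σ * w'
      linarith

end

end Pool.Agent.VN
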